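import Pool.Agent.N709.UM.Stm3

/-! # Project UM3, leaf NL3: no loss in `G ⧸ U` (helper915) -/

set_option autoImplicit false

open Filter Topology Pointwise

universe u

namespace Pool.Agent.N915.UM3NL3

open Pool.Agent.N709.UM

lemma rho_nonneg {G : Type u} [Group G] {ρ : G → ℝ} (h : PN ρ) (g : G) : 0 ≤ ρ g := by
  have h1 := h.mul g g⁻¹
  rw [mul_inv_cancel, h.one, h.inv] at h1
  linarith

lemma dU_le {G : Type u} [Group G] {ρ : G → ℝ} (h : PN ρ) (U : Subgroup G) (g : G) (v : U) :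
    dU ρ U g ≤ ρ (g * v) :=
  ciInf_le ⟨0, by rintro _ ⟨w, rfl⟩; exact rho_nonneg h _⟩ v

lemma le_dU {G : Type u} [Group G] {ρ : G → ℝ} (U : Subgroup G) (g : G) (c : ℝ)
    (hc : ∀ v : U, c ≤ ρ (g * v)) : c ≤ dU ρ U g :=
  le_ciInf hc

lemma conj_pow {G : Type u} [Group G] {ρ : G → ℝ} (a : G) (t : ℝ)
    (h : ∀ c, ρ (a * c * a⁻¹) ≤ ρ c + t) (j : ℕ) :
    ∀ c, ρ (a ^ j * c * (a ^ j)⁻¹) ≤ ρ c + j * t := by
  induction j with
  | zero => intro c; simp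
  | succ j ih =>
    intro c
    have e : a ^ (j + 1) * c * (a ^ (j + 1))⁻¹ = a ^ j * (a * c * a⁻¹) * (a ^ j)⁻¹ := by
      rw [pow_succ]
      group
    rw [e]
    have h1 := ih (a * c * a⁻¹)
    have h2 := h c
    push_cast
    linarith

theorem nl3 : Nl3.{u} := by
  intro G _ _ _ ρ hρ F hF U r hC M h q s hs1 hs2
  by_contra hcon
  have hA1 : {a : G | {b : G | dU ρ U (h * (a ^ M * (b ^ M)⁻¹) * q) ≤ s} ∈ F} ∈ F := by
    have h1 := Ultrafilter.compl_mem_iff_notMem.2 hcon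
    filter_upwards [h1] with a ha
    have h2 := Ultrafilter.compl_mem_iff_notMem.2 ha
    filter_upwards [h2] with b hb
    exact not_lt.1 hb
  obtain ⟨C, hCc, hC⟩ := hC
  obtain ⟨a0, ha0⟩ := F.nonempty_of_mem hA1
  -- (i)
  have hK : {b : G | (((b ^ M)⁻¹ * q : G) : G ⧸ U) ∈ (h * a0 ^ M)⁻¹ • C} ∈ F := by
    filter_upwards [ha0] with b hb
    have h3 : dU ρ U (h * (a0 ^ M * (b ^ M)⁻¹) * q) < r := lt_of_le_of_lt hb hs2
    obtain ⟨v, hv⟩ := exists_lt_of_ciInf_lt h3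
    have h4 := hC _ hv
    rw [Set.mem_smul_set_iff_inv_smul_mem, inv_inv]
    have h5 : (h * a0 ^ M) • (((b ^ M)⁻¹ * q : G) : G ⧸ U) =
        ((h * (a0 ^ M * (b ^ M)⁻¹) * q * (v : G) : G) : G ⧸ U) := by
      rw [MulAction.Quotient.smul_coe, QuotientGroup.eq]
      have : ((h * a0 ^ M) • ((b ^ M)⁻¹ * q))⁻¹ * (h * (a0 ^ M * (b ^ M)⁻¹) * q * (v : G)) = (v : G) := by
        rw [smul_eq_mul]
        group
      rw [this]
      exact v.2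
    rw [h5]
    exact h4
  obtain ⟨x0, -, hx0⟩ := (hCc.smul ((h * a0 ^ M)⁻¹)).ultrafilter_le_nhds
    (F.map fun b : G => (((b ^ M)⁻¹ * q : G) : G ⧸ U)) (by
      rw [le_principal_iff]
      exact hK)
  obtain ⟨g0, rfl⟩ := QuotientGroup.mk_surjective x0
  -- (ii)
  have hii : ∀ η : ℝ, 0 < η → {b : G | ∃ e v : G, v ∈ U ∧ ρ e < η ∧ (b ^ M)⁻¹ * q = e * g0 * v} ∈ F := by
    intro η hη
    have hO : IsOpen {g : G | ρ (g * g0⁻¹) < η} :=
      isOpen_lt (hρ.cont.comp (continuous_mul_const g0⁻¹)) continuous_const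
    have hO2 : IsOpen ((QuotientGroup.mk : G → G ⧸ U) '' {g : G | ρ (g * g0⁻¹) < η}) :=
      QuotientGroup.isOpenMap_coe _ hO
    have hO3 : (QuotientGroup.mk : G → G ⧸ U) '' {g : G | ρ (g * g0⁻¹) < η} ∈ 𝓝 (g0 : G ⧸ U) := by
      refine hO2.mem_nhds ⟨g0, ?_, rfl⟩
      show ρ (g0 * g0⁻¹) < η
      rw [mul_inv_cancel, hρ.pn.one]
      exact hη
    have h6 := hx0 hO3
    have h7 : (fun b : G => (((b ^ M)⁻¹ * q : G) : G ⧸ U)) ⁻¹'
        ((QuotientGroup.mk : G → G ⧸ U) '' {g : G | ρ (g * g0⁻¹) < η}) ∈ F := h6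
    filter_upwards [h7] with b hb
    obtain ⟨g, hg, hgb⟩ := hb
    refine ⟨g * g0⁻¹, g⁻¹ * ((b ^ M)⁻¹ * q), QuotientGroup.eq.1 hgb, hg, ?_⟩
    group
  -- (iii)
  obtain ⟨η, hη, hη1⟩ := hρ.gen {E : G | ρ (h * E * h⁻¹) < dU ρ U (h * q) - s} (by
    have hc : Continuous fun E : G => ρ (h * E * h⁻¹) :=
      hρ.cont.comp ((continuous_mul_const h⁻¹).comp (continuous_const_mul h))
    refine (isOpen_lt hc continuous_const).mem_nhds ?_
    show ρ (h * 1 * h⁻¹) < dU ρ U (h * q) - s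
    rw [mul_one, mul_inv_cancel, hρ.pn.one]
    linarith)
  -- (iv)
  have hM : (0 : ℝ) < 8 * ((M : ℝ) + 1) := by positivity
  obtain ⟨a, ⟨ha1, ha2⟩, ha3⟩ := F.nonempty_of_mem
    (inter_mem (inter_mem hA1 (hii (η / 8) (by positivity))) (hF.inv (η / (8 * ((M : ℝ) + 1)))
      (by positivity)))
  obtain ⟨b, hb1, hb2⟩ := F.nonempty_of_mem (inter_mem ha1 (hii (η / 8) (by positivity)))
  obtain ⟨ea, ua, hua, hea, hae⟩ := ha2
  obtain ⟨eb, ub, hub, heb, hbe⟩ := hb2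
  have hconj := conj_pow a _ (fun c => (ha3 c).1) M
  have hE : ρ (a ^ M * (eb * ea⁻¹) * (a ^ M)⁻¹) < η := by
    have h8 := hconj (eb * ea⁻¹)
    have h9 := hρ.pn.mul eb ea⁻¹
    rw [hρ.pn.inv] at h9
    have h10 : (M : ℝ) * (η / (8 * ((M : ℝ) + 1))) ≤ η / 8 := by
      rw [mul_div_assoc', div_le_div_iff₀ hM (by norm_num)]
      nlinarith
    linarith
  have hg := hη1 _ hE
  have hkey : a ^ M * (b ^ M)⁻¹ * q =
      a ^ M * (eb * ea⁻¹) * (a ^ M)⁻¹ * q * (ua⁻¹ * ub) := by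
    have h11 : q = a ^ M * (ea * g0 * ua) := by
      rw [← hae]
      group
    rw [mul_assoc (a ^ M) (b ^ M)⁻¹ q, hbe]
    conv_rhs => rw [h11]
    group
  have hfin : dU ρ U (h * q) - ρ (h * (a ^ M * (eb * ea⁻¹) * (a ^ M)⁻¹) * h⁻¹) ≤
      dU ρ U (h * (a ^ M * (b ^ M)⁻¹) * q) := by
    refine le_dU U _ _ fun v => ?_
    have h12 := dU_le hρ.pn U (h * q) ⟨ua⁻¹ * ub * v, U.mul_mem (U.mul_mem (U.inv_mem hua) hub) v.2⟩
    have h13 : h * q * (ua⁻¹ * ub * (v : G)) =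
        (h * (a ^ M * (eb * ea⁻¹) * (a ^ M)⁻¹) * h⁻¹)⁻¹ *
          (h * (a ^ M * (b ^ M)⁻¹) * q * v) := by
      have h14 : h * (a ^ M * (b ^ M)⁻¹) * q * (v : G) =
          h * (a ^ M * (b ^ M)⁻¹ * q) * v := by group
      rw [h14, hkey]
      group
    have h15 := hρ.pn.mul (h * (a ^ M * (eb * ea⁻¹) * (a ^ M)⁻¹) * h⁻¹)⁻¹
      (h * (a ^ M * (b ^ M)⁻¹) * q * v)
    rw [hρ.pn.inv, ← h13] at h15
    have h16 : dU ρ U (h * q) ≤ ρ (h * q * (ua⁻¹ * ub * (v : G))) := h12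
    linarith
  have hb3 : dU ρ U (h * (a ^ M * (b ^ M)⁻¹) * q) ≤ s := hb1
  have hg2 : ρ (h * (a ^ M * (eb * ea⁻¹) * (a ^ M)⁻¹) * h⁻¹) < dU ρ U (h * q) - s := hg
  linarith

end Pool.Agent.N915.UM3NL3
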